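import Pool.Agent.W751.CV.Stm
import Pool.Agent.W751.CD.Fib

/-! # Project CV, parts CRIT and POLY -/

set_option autoImplicit false

open Polynomial Filter Topology MeasureTheory

namespace Pool.Agent.W327.CV

open Pool.Agent.W751.CD Pool.Agent.W751.CV

theorem crit : S_CRIT := by
  intro N p ρ z c hN hz hc
  have hdeg : 0 < (P z).degree := by
    rw [degree_eq_natDegree (P_monic z).ne_zero, P_natDegree]
    exact_mod_cast hN
  have h1 := eq_centerMass_of_eval_derivative_eq_zero hdeg hc
  have h2 : (P z).roots.toFinset.centerMass ((P z).derivRootWeight c) id ∈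
      Metric.closedBall p ρ := by
    refine (convex_closedBall p ρ).centerMass_mem (fun w _ => derivRootWeight_nonneg _ _ _)
      (sum_derivRootWeight_pos hdeg c) ?_
    intro w hw
    rw [Multiset.mem_toFinset, mem_roots (P_monic z).ne_zero, IsRoot.def, eval_P,
      Finset.prod_eq_zero_iff] at hw
    obtain ⟨i, -, hi⟩ := hw
    rw [id, sub_eq_zero.1 hi, Metric.mem_closedBall, dist_eq_norm]
    exact hz i
  rw [← h1, Metric.mem_closedBall, dist_eq_norm] at h2
  exact h2

theorem P_add {N : ℕ} (z : Fin N → ℂ) (p : ℂ) : (P fun i => z i + p) = (P z).comp (X - C p) := by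
  unfold P
  rw [prod_comp]
  refine Finset.prod_congr rfl fun i _ => ?_
  rw [sub_comp, X_comp, C_comp, C_add]
  ring

theorem exists_roots {N : ℕ} (Q : ℂ[X]) (hQ : Q.Monic) (hN : Q.natDegree = N) :
    ∃ z : Fin N → ℂ, Q = P z := by
  have hs : Q.Splits := IsAlgClosed.splits Q
  have hcard : Q.roots.toList.length = N := by
    rw [Multiset.length_toList, ← hs.natDegree_eq_card_roots, hN]
  subst hcard
  refine ⟨fun i => Q.roots.toList.get i, ?_⟩
  unfold P
  conv_lhs => rw [hs.eq_prod_roots_of_monic hQ]
  rw [← Multiset.coe_toList Q.roots, Multiset.map_coe, Multiset.prod_coe, Multiset.coe_toList,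
    ← List.prod_ofFn]
  congr 1
  apply List.ext_get
  · simp
  · intro n h1 h2
    simp

theorem poly_t : S_POLY := by
  refine ⟨?_, ?_, ?_, ?_⟩
  · intro N z
    unfold poly Phi
    have h := (P_monic z).as_sum
    rw [P_natDegree, Finset.sum_range] at h
    exact h.symm
  · intro N z p w
    rw [P_add, eval_comp, eval_sub, eval_X, eval_C]
  · intro N z p w
    rw [P_add, derivative_comp, derivative_sub, derivative_X, derivative_C, sub_zero, one_mul,
      eval_comp, eval_sub, eval_X, eval_C]
  · intro N p ρ a ha
    have hdeg : (∑ k : Fin N, C (a k) * X ^ (k : ℕ)).degree < (N : WithBot ℕ) := by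
      refine (degree_sum_le _ _).trans_lt ?_
      refine (Finset.sup_lt_iff (WithBot.bot_lt_coe N)).2 ?_
      intro k _
      exact (degree_C_mul_X_pow_le _ _).trans_lt (WithBot.coe_lt_coe.2 k.2)
    have hm : (poly a).Monic := monic_X_pow_add hdeg
    have hd : (poly a).natDegree = N := by
      have h1 : (poly a).degree = N := by
        unfold poly
        rw [degree_add_eq_left_of_degree_lt, degree_X_pow]
        rw [degree_X_pow]
        exact hdeg
      exact natDegree_eq_of_degree_eq_some h1
    obtain ⟨z, hz⟩ := exists_roots (poly a) hm hd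
    refine ⟨z, fun i => ha _ ?_, hz⟩
    rw [hz, eval_P]
    exact Finset.prod_eq_zero (Finset.mem_univ i) (sub_self _)

end Pool.Agent.W327.CV
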